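import Mathlib

/-!
# Project KI (helper127): definitions and statements

A subshift `Sub` of `{0,1}^ℤ` of positive entropy with exactly one invariant probability measure (the blocks of level
`k + 1` are the concatenations of ALL the blocks of level `k`, each exactly once, in any order), and the measure
theory which is needed to disprove Katok's conjecture on intermediate entropies.
Every job: `theorem name (hypotheses) : S_name`. The proof is in the docstring of `S_name`.
-/

set_option autoImplicit false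

namespace Pool.Agent.Q127.KI

open MeasureTheory Filter Topology

/-- the number of symbols of level `k` -/
def N : ℕ → ℕ
  | 0 => 16
  | k + 1 => (N k).factorial

/-- the length of the blocks of level `k` -/
def L : ℕ → ℕ
  | 0 => 4
  | k + 1 => N k * L k

lemma N_pos (k : ℕ) : 0 < N k := by
  cases k with
  | zero => norm_num [N]
  | succ k => exact Nat.factorial_pos _

lemma L_pos (k : ℕ) : 0 < L k := by
  induction k with
  | zero => norm_num [L]
  | succ k ih => exact Nat.mul_pos (N_pos k) ih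

/-- the symbols of level `k + 1` are the permutations of the symbols of level `k` -/
noncomputable def e (k : ℕ) : Fin (N (k + 1)) ≃ Equiv.Perm (Fin (N k)) :=
  (Fintype.equivFinOfCardEq (by rw [Fintype.card_perm, Fintype.card_fin]; rfl)).symm

/-- the symbols of level `0` are the words of length `4` -/
noncomputable def e0 : Fin (N 0) ≃ (Fin 4 → Bool) :=
  (Fintype.equivFinOfCardEq (by simp [N])).symm

/-- the `i`-th letter (`i < L k`) of the block of level `k` with the symbol `s` -/
noncomputable def ex : (k : ℕ) → Fin (N k) → ℕ → Bool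
  | 0, s, i => e0 s ⟨i % 4, Nat.mod_lt _ (by norm_num)⟩
  | k + 1, s, i => ex k (e k s ⟨i / L k % N k, Nat.mod_lt _ (N_pos k)⟩) (i % L k)

/-- the word of `w` at `a` is the block of level `k` with the symbol `s` -/
def Blk (k : ℕ) (w : ℤ → Bool) (a : ℤ) (s : Fin (N k)) : Prop := ∀ i : ℕ, i < L k → w (a + i) = ex k s i

/-- the sequences which are concatenations of blocks of level `k` -/
def Sk (k : ℕ) : Set (ℤ → Bool) := {w | ∃ r : ℤ, ∀ j : ℤ, ∃ s : Fin (N k), Blk k w (r + j * L k) s}

/-- the subshift -/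
def Sub : Set (ℤ → Bool) := ⋂ k, Sk k

/-- the shift -/
def sh (w : ℤ → Bool) : ℤ → Bool := fun i => w (i + 1)

/-- the translation by `a` -/
def tr (a : ℤ) (w : ℤ → Bool) : ℤ → Bool := fun i => w (i + a)

/-- GRW. Proof: show by induction `L k / 8 + 2 ≤ log (N k)` (k = 0: `log 16 = 4 log 2 > 2.7 > 2.5`;
`log (n !) ≥ n log n - n` by `Real.pow_div_factorial_le_exp n n`: `n ^ n / n ! ≤ exp n`; so
`log N (k+1) ≥ N k (log N k - 1) ≥ N k (L k / 8 + 1) = L (k+1) / 8 + N k` and `N k ≥ 2`), then exponentiate. -/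
def S_grw : Prop := (∀ k, Real.exp ((L k : ℝ) / 8) ≤ N k) ∧ ∀ k, 2 ^ k ≤ L k

/-- SUB. The blocks of level `k + 1` consist of the blocks of level `k`. Proof: `i' = j * L k + i`,
`i' / L k = j`, `i' % L k = i`, unfold `ex`. -/
def S_sub : Prop := ∀ (k : ℕ) (w : ℤ → Bool) (a : ℤ) (s : Fin (N (k + 1))), Blk (k + 1) w a s →
  ∀ j : Fin (N k), Blk k w (a + (j : ℕ) * L k) (e k s j)

/-- DEC. `Sk` is decreasing. Proof: `w ∈ Sk (k+1)` with offset `r`; use the same `r`; for `j : ℤ` write
`j = j' * N k + j0` with `0 ≤ j0 < N k`; then `r + j * L k = r + j' * L (k+1) + j0 * L k`; use S_sub. -/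
def S_dec : Prop := ∀ k, Sk (k + 1) ⊆ Sk k

/-- INJ. Proof: induction on `k`. `k = 0`: `e0 s` and `e0 s'` agree. `k + 1`: for every `j : Fin (N k)` and `i < L k`
take the letter `j * L k + i`; so `e k s j = e k s' j` by induction; hence `e k s = e k s'`. -/
def S_inj : Prop := ∀ (k : ℕ) (s s' : Fin (N k)), (∀ i : ℕ, i < L k → ex k s i = ex k s' i) → s = s'

/-- CLS. Proof: `Sk k` is the union over `r ∈ {0, ..., L k - 1}` (replace `r` by `r % L k`) of the sets of the `w` such
that for all `j` some `s` has `∀ i < L k, w (r + j * L k + i) = ex k s i`; these are intersections of finite unions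
of finite intersections of closed sets (evaluation maps are continuous, `Bool` is discrete). -/
def S_cls : Prop := ∀ k, IsClosed (Sk k)

/-- INV. Proof: `r` becomes `r - a`. -/
def S_inv : Prop := ∀ (k : ℕ) (a : ℤ) (w : ℤ → Bool), w ∈ Sk k → tr a w ∈ Sk k

/-- NEM. Proof: Cantor intersection (`IsCompact.nonempty_iInter_of_sequence_nonempty_isCompact_isClosed`) with S_dec
and S_cls; `Sk k` is not empty: `w z = ex k s (z % L k).toNat` for a fixed symbol `s`, offset `0`. -/
def S_nem : Prop := Sub.Nonempty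

/-- APP. All blocks occur. Proof: `w ∈ Sk (k + 1)`: some block of level `k + 1` with symbol `s'` at `r`; by S_sub its
`j`-th block is `e k s' j`, take `j = (e k s').symm s`. -/
def S_app : Prop := ∀ w ∈ Sub, ∀ (k : ℕ) (s : Fin (N k)), ∃ a : ℤ, Blk k w a s

/-- FRQ. Uniform frequencies. Proof. Put `pp k s z = ex k s z.toNat` and
`Γ = ∑ s : Fin (N k), ∑ i ∈ range (L k), g (sh^[i] (pp k s))`.
(a) If `Blk k w a s` (with `a : ℕ`), then `|∑ i ∈ range (L k), g (sh^[a + i] w) - ∑ i ∈ range (L k), g (sh^[i] (pp k s))|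
≤ 2 m`: for `i + m ≤ L k` the two terms agree (coordinates `0, ..., m-1` of `sh^[a+i] w` are
`w (a + i + t) = ex k s (i + t)`); the other terms (at most `m`) differ by at most `2`.
(b) If `Blk (k+1) w a s`, then by S_sub and (a), summing over the `N k` blocks and by `Equiv.sum_comp (e k s)`,
`|∑ i ∈ range (L (k+1)), g (sh^[a + i] w) - Γ| ≤ 2 m N k`.
(c) `w ∈ Sub ⊆ Sk (k+1)`: offset `r`, which may be taken in `[0, L (k+1))`. The sum over `i < (q+1) L (k+1)` consists of
`q` full blocks starting at `r, r + L (k+1), ...` and of `L (k+1)` further terms (first `r` ones and the last ones), each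
of absolute value at most `1`. -/
def S_frq : Prop := ∀ (m : ℕ) (g : (ℤ → Bool) → ℝ), (∀ w, |g w| ≤ 1) →
  (∀ w w' : ℤ → Bool, (∀ i : ℕ, i < m → w i = w' i) → g w = g w') → ∀ k : ℕ, ∃ Γ : ℝ, ∀ w ∈ Sub, ∀ q : ℕ,
    |∑ i ∈ Finset.range ((q + 1) * L (k + 1)), g (sh^[i] w) - q * Γ| ≤ q * (2 * m * N k) + L (k + 1)

/-- UNI. Unique invariant measure. Proof: let `A` be a measurable cylinder (`measurableCylinders`,
`generateFrom_measurableCylinders`, `isPiSystem_measurableCylinders`, `MeasureTheory.ext_of_generate_finite`); it depends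
only on the coordinates in `[-a, a]`; `g` = indicator (values 0, 1) of `(sh^[a])⁻¹ A` depends only on the coordinates in
`[0, 2a]`, so S_frq applies with `m = 2 a + 1`. With `n = (q+1) L (k+1)` and invariance
`n ∫ g dμ = ∫ ∑ i < n, g (sh^[i] w) dμ`, so `|n ∫ g dμ - q Γ| ≤ q (2 m N k) + L (k+1)` (`μ Sub = 1`), the same for `ν`.
Divide by `n ≥ q N k L k` and `n ≥ q L (k+1)`: `|∫ g dμ - ∫ g dν| ≤ 4 m / L k + 2 / q` for all `k` and `q ≥ 1`; `L k → ∞`
(S_grw). And `μ A = μ ((sh^[a])⁻¹ A) = ∫ g dμ`. -/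
def S_uni : Prop := ∀ (μ ν : Measure (ℤ → Bool)) [IsProbabilityMeasure μ] [IsProbabilityMeasure ν],
  MeasurePreserving sh μ μ → MeasurePreserving sh ν ν → (∀ᵐ w ∂μ, w ∈ Sub) → (∀ᵐ w ∂ν, w ∈ Sub) → μ = ν

/-- TRA. Transport. Proof: `Φ` is a closed embedding (compact to Hausdorff), so a measurable embedding. Put
`μ' = μ.comap Φ`; `μ'.map Φ = μ` because `μ` lives on the range of `Φ`; `μ'` is a probability measure with
`∀ᵐ w, w ∈ Sub`; `sh` preserves it: `Φ (sh w) = f (Φ w)` for almost all `w`, so `(μ'.map sh).map Φ = μ'.map (f ∘ Φ) =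
μ.map f = μ = μ'.map Φ` and `Φ` is a measurable embedding (map by it is injective: `MeasurableEmbedding.comap_map`).
The same for `ν`; by S_uni `μ' = ν'`. -/
def S_tra : Prop := ∀ (M : Type) [MetricSpace M] [MeasurableSpace M] [BorelSpace M] (f : M → M), Measurable f →
  ∀ Φ : (ℤ → Bool) → M, Continuous Φ → Function.Injective Φ → (∀ w ∈ Sub, f (Φ w) = Φ (sh w)) →
  ∀ (μ ν : Measure M) [IsProbabilityMeasure μ] [IsProbabilityMeasure ν],
    MeasurePreserving f μ μ → MeasurePreserving f ν ν →
    (∀ᵐ x ∂μ, x ∈ Φ '' Sub) → (∀ᵐ x ∂ν, x ∈ Φ '' Sub) → μ = ν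

/-- ENT. Positive topological entropy. Proof: as in `Pool.Agent.Helper245.Ent.entropy_pos` (copy that file). The compact
sets `Φ '' (Sub ∩ {w 0 = true})` and `Φ '' (Sub ∩ {w 0 = false})` are disjoint, so for some `δ > 0` we have
`δ ≤ dist (Φ w) (Φ w')` if `w, w' ∈ Sub` and `w 0 ≠ w' 0`. Take `w ∈ Sub` (S_nem); for every symbol `s` of level `k` a
position `a s` with `Blk k w (a s) s` (S_app); the points `Φ (tr (a s) w)` are `(L k, δ)`-separated (S_inj,
`F^[i] (Φ w) = Φ (tr i w)` on `Sub`, S_inv), so the maximal cardinality of a net of length `L k` for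
`U = {dist < δ / 2}` is at least `N k ≥ exp (L k / 8)` (S_grw), and `L k → ∞`. -/
def S_ent : Prop := ∀ (M : Type) [MetricSpace M] (F : M → M) (Φ : (ℤ → Bool) → M), Continuous Φ →
  Function.Injective Φ → (∀ w ∈ Sub, F (Φ w) = Φ (sh w)) → 0 < Dynamics.coverEntropy F Set.univ

/-- The entropy `- ∑ μ(P_a) log μ(P_a)` of the partition into the sets `P_a = {x | p x = a}`. -/
noncomputable def partEntropy {M : Type} [MeasurableSpace M] (μ : Measure M) {α : Type} [Fintype α] (p : M → α) : ℝ :=
  ∑ a, Real.negMulLog (μ.real (p ⁻¹' {a}))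

/-- The function whose level sets are the members of the common refinement of the partitions
`P, f⁻¹ P, ..., f^(-(n-1)) P`, where `P` is the partition into the level sets of `p`. -/
def names {M : Type} (f : M → M) {m : ℕ} (p : M → Fin m) (n : ℕ) (x : M) : Fin n → Fin m := fun i => p (f^[i] x)

/-- The Kolmogorov-Sinai entropy of `f` with respect to the invariant probability measure `μ`: the supremum over all
finite measurable partitions `P` of the limit of `(1/n) H(P ∨ f⁻¹ P ∨ ... ∨ f^(-(n-1)) P)`. -/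
noncomputable def ksEntropy {M : Type} [MeasurableSpace M] (f : M → M) (μ : Measure M) : EReal :=
  ⨆ (m : ℕ) (p : M → Fin m) (_ : Measurable p),
    limsup (fun n : ℕ => ((partEntropy μ (names f p n) / n : ℝ) : EReal)) atTop

/-- KSZ. Proof: for almost all `x` all `f^[i] x = x`, so `names f p n x` is the constant function `p x`; hence for `n ≥ 1`
`μ (names⁻¹ {a})` is `μ (p⁻¹ {b})` if `a` is constant `= b` and `0` otherwise (`negMulLog 0 = 0`), so
`partEntropy μ (names f p n) = partEntropy μ p` for `n ≥ 1`, and `partEntropy μ p / n → 0`. The supremum is over zeros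
and not empty (`m = 1`); for `m = 0` there is no `p` since `M` is not empty. -/
def S_ksz : Prop := ∀ (M : Type) [MeasurableSpace M] (f : M → M) (μ : Measure M) [IsProbabilityMeasure μ],
  (∀ᵐ x ∂μ, f x = x) → ksEntropy f μ = 0

/-- MEA. Proof: `∫ (τ ∘ f - τ) dμ = 0` by invariance and the integrand is nonnegative
(`integral_eq_zero_iff_of_nonneg`). -/
def S_mea : Prop := ∀ (M : Type) [MeasurableSpace M] (f : M → M) (μ : Measure M) [IsProbabilityMeasure μ],
  MeasurePreserving f μ μ → ∀ τ : M → ℝ, Measurable τ → (∃ C : ℝ, ∀ x, |τ x| ≤ C) → (∀ x, τ x ≤ τ (f x)) →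
    ∀ᵐ x ∂μ, τ (f x) = τ x

end Pool.Agent.Q127.KI
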