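import Mathlib
import Pool.Agent.Q127.KI.Stm

/-!
# Project KI (helper127), second part: all orbit measures are finite (MP_7f417e_an)

Every job: `theorem name (hypotheses) : S_name`. The proof is in the docstring of `S_name`.
-/

set_option autoImplicit false

namespace Pool.Agent.Q127.KI

open MeasureTheory Filter Topology

open Classical in
/-- The upper frequency of the visits of the orbit of `x` to `A`:
`limsup (1/n) #{0 ≤ j < n : f^j(x) ∈ A}`. -/
noncomputable def upperFreq {M : Type} (f : M → M) (x : M) (A : Set M) : ENNReal :=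
  limsup (fun n : ℕ => (((Finset.range n).filter (fun j => f^[j] x ∈ A)).card : ENNReal) / n) atTop

/-- `ν_{x,r}(Y)`: the infimum of `∑ τ_x(I_i)` over the countable covers `I_i` of `Y` by open sets of diameter at most
`r`. -/
noncomputable def coverMass {M : Type} [MetricSpace M] (f : M → M) (x : M) (r : ℝ) (Y : Set M) : ENNReal :=
  ⨅ (I : ℕ → Set M) (_ : ∀ i, IsOpen (I i) ∧ ∀ a ∈ I i, ∀ b ∈ I i, dist a b ≤ r) (_ : Y ⊆ ⋃ i, I i),
    ∑' i, upperFreq f x (I i)

/-- `ν_x(Y) = sup_{r > 0} ν_{x,r}(Y)`; its restriction to the Borel sets is the orbit measure `η_x`. -/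
noncomputable def orbitMass {M : Type} [MetricSpace M] (f : M → M) (x : M) (Y : Set M) : ENNReal :=
  ⨆ (r : ℝ) (_ : 0 < r), coverMass f x r Y

/-- DIC. Proof. Let `v n = F^[n] v`; `‖v n‖ < 1`; `v n t` increases, so it converges to some `T`. Suppose that
`infDist (v n) K` does not tend to `0`. Then for some `δ > 0` infinitely many `n` have `infDist (v n) K ≥ δ`; by compactness
of the closed ball a subsequence of these converges to some `z` with `‖z‖ ≤ 1`, `infDist z K ≥ δ`, so `z ∉ K`; `z t = T` and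
`F z t = T` by continuity. So not `‖z‖ < 1`, hence `‖z‖ = 1` and `F z = z`. Let `0 < ε < 1/4`; choose `n` in the subsequence
with `‖v n - z‖ ≤ ε`. By induction for all `m ≥ n`: `v m i = v n i` for `i ≠ t` and `v n t ≤ v m t ≤ T = z t`, so
`‖v m - z‖ ≤ ε` and `‖v m‖ ≥ 1 - ε ≥ 1/2`, so the next step changes only the coordinate `t`. Hence `v m → z`. -/
def S_dic : Prop := ∀ (d : ℕ) (t : Fin d) (F : (Fin d → ℝ) → (Fin d → ℝ)) (K : Set (Fin d → ℝ)), Continuous F →
  (∀ v, ‖v‖ < 1 → ‖F v‖ < 1) → (∀ v, 1 ≤ ‖v‖ → F v = v) → (∀ v, v t ≤ F v t) →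
  (∀ v, ‖v‖ < 1 → v ∉ K → v t < F v t) → (∀ v, 1 / 2 ≤ ‖v‖ → ∀ i, i ≠ t → F v i = v i) →
  ∀ v, ‖v‖ < 1 → (∃ z, F z = z ∧ Tendsto (fun n => F^[n] v) atTop (𝓝 z)) ∨
    Tendsto (fun n => Metric.infDist (F^[n] v) K) atTop (𝓝 0)

/-- FIX. Proof. Let `r > 0`. Cover: `I 0 = ball z (r/2)`, of upper frequency at most `1` (always `upperFreq ≤ 1`); the
compact set `(ball z (r/2))ᶜ` is covered by finitely many balls of radius `r/8` with centres in it; they are disjoint from
`ball z (r/4)`, which contains `f^[n] x` for all large `n`, so they have upper frequency `0` (the count is bounded and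
`n → ∞`). All other `I i` are empty. So `coverMass f x r univ ≤ 1`. -/
def S_fix : Prop := ∀ (M : Type) [MetricSpace M] [CompactSpace M] (f : M → M) (x z : M),
  Tendsto (fun n => f^[n] x) atTop (𝓝 z) → orbitMass f x Set.univ ≤ 1

/-- CNV. Proof: for `n ≥ J` the sum over `j < n` differs from `c` times the number of terms by at most
`J + n0 + J |c| + n0 |c| + ε n` (group the `j ≥ J` into windows of length `n0`), so
`limsup - liminf ≤ 2 ε` for all `ε`; the averages form a Cauchy sequence. -/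
def S_cnv : Prop := ∀ b : ℕ → ℝ, (∀ n, |b n| ≤ 1) →
  (∀ ε : ℝ, 0 < ε → ∃ (n0 : ℕ) (c : ℝ) (J : ℕ), 0 < n0 ∧ ∀ j, J ≤ j →
    |∑ i ∈ Finset.range n0, b (j + i) - n0 * c| ≤ ε * n0) →
  ∃ c : ℝ, Tendsto (fun n : ℕ => (∑ j ∈ Finset.range n, b j) / (n : ℝ)) atTop (𝓝 c)

/-- FR2. Proof from S_frq (`Pool.Agent.Q208.KI_FRQ.frq` with `Pool.Agent.Q121.KI_SUB.sub`): apply it to
`g' = g ∘ sh^[a]`, `m = 2 a + 1`, and to `tr (-a) w ∈ Sub` (`Pool.Agent.Q71.KI_INV.inv`): `g' (sh^[i] (tr (-a) w)) =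
g (sh^[i] w)`. Take `n0 = (q+1) L (k+1)`, `c = q Γ / n0`; `(q (2 m N k) + L (k+1)) / n0 ≤ 2 m / L k + 1 / (q+1) ≤ ε` for
large `k`, `q` (`2 ^ k ≤ L k` by S_grw, `Pool.Agent.Q127.KI.grw` in `Pool.Agent.Q90.KI_GRW`). -/
def S_fr2 : Prop := ∀ (a : ℕ) (g : (ℤ → Bool) → ℝ), (∀ w, |g w| ≤ 1) →
  (∀ w w' : ℤ → Bool, (∀ i : ℤ, -(a : ℤ) ≤ i → i ≤ a → w i = w' i) → g w = g w') →
  ∀ ε : ℝ, 0 < ε → ∃ (n0 : ℕ) (c : ℝ), 0 < n0 ∧ ∀ w ∈ Sub,
    |∑ i ∈ Finset.range n0, g (sh^[i] w) - n0 * c| ≤ ε * n0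

/-- SHD. Shadowing. Proof: `f^[0], ..., f^[n0]` are uniformly continuous (`M` compact): there is `η > 0` such that
`dist y y' < η` implies `dist (f^[i] y) (f^[i] y') < δ` for `i ≤ n0`; for `j ≥ J` there is `w ∈ Sub` with
`dist (f^[j] x) (Φ w) < η` (`Sub` is not empty because otherwise ... : use the hypothesis `Sub.Nonempty`); and
`f^[i] (Φ w) = Φ (sh^[i] w)` (`sh` maps `Sub` to itself: `tr 1`). -/
def S_shd : Prop := ∀ (M : Type) [MetricSpace M] [CompactSpace M] (f : M → M) (Φ : (ℤ → Bool) → M), Continuous f →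
  Sub.Nonempty → (∀ w ∈ Sub, sh w ∈ Sub) → (∀ w ∈ Sub, f (Φ w) = Φ (sh w)) → ∀ x : M,
  Tendsto (fun n => Metric.infDist (f^[n] x) (Φ '' Sub)) atTop (𝓝 0) → ∀ δ : ℝ, 0 < δ → ∀ n0 : ℕ,
    ∃ J : ℕ, ∀ j, J ≤ j → ∃ w ∈ Sub, ∀ i ≤ n0, dist (f^[j + i] x) (Φ (sh^[i] w)) < δ

/-- the part of the subshift with the word `u` on `[-a, a]` -/
def Cyl (a : ℕ) (u : ℤ → Bool) : Set (ℤ → Bool) := {w | w ∈ Sub ∧ ∀ i : ℤ, -(a : ℤ) ≤ i → i ≤ a → w i = u i}

open Classical in
/-- FRL. The frequency of visits to the neighbourhood of a cylinder exists. Proof: let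
`b j = 1` if `f^[j] x ∈ thickening δ (Φ '' Cyl a u)`, else `0`; S_cnv. Given `ε`, take `n0`, `c` of S_fr2 for `g` = indicator
of `{w | ∀ i ∈ [-a, a], w i = u i}` and `J` of S_shd for `δ`, `n0`. For `j ≥ J` and `i < n0`:
`f^[j+i] x` is in the thickening iff `sh^[i] w ∈ Cyl a u` (if: clear; only if: otherwise some `w' ∈ Cyl a u` has
`dist (f^[j+i] x) (Φ w') < δ`, so `dist (Φ w') (Φ (sh^[i] w)) < 2 δ`, against the hypothesis). So
`∑ i < n0, b (j+i) = ∑ i < n0, g (sh^[i] w)`. -/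
def S_frl : Prop := ∀ (M : Type) [MetricSpace M] [CompactSpace M] (f : M → M) (Φ : (ℤ → Bool) → M), Continuous f →
  Sub.Nonempty → (∀ w ∈ Sub, sh w ∈ Sub) → (∀ w ∈ Sub, f (Φ w) = Φ (sh w)) → ∀ x : M,
  Tendsto (fun n => Metric.infDist (f^[n] x) (Φ '' Sub)) atTop (𝓝 0) → ∀ (a : ℕ) (u : ℤ → Bool) (δ : ℝ), 0 < δ →
  (∀ w ∈ Cyl a u, ∀ w' ∈ Sub, w' ∉ Cyl a u → 2 * δ ≤ dist (Φ w) (Φ w')) →
    ∃ c : ℝ, Tendsto (fun n : ℕ => (((Finset.range n).filter
      (fun j => f^[j] x ∈ Metric.thickening δ (Φ '' Cyl a u))).card : ℝ) / (n : ℝ)) atTop (𝓝 c)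

/-- COV. Proof. Let `r > 0`. `Φ` is uniformly continuous on the compact space `ℤ → Bool`, so for some `a` two
sequences which agree on `[-a, a]` have images at distance `≤ r/3`. There are finitely many words `u` on `[-a, a]` (take
for each word one extension `u`, e.g. by `false`); the compact sets `Φ '' Cyl a u` are disjoint (`Φ` injective, `Sub`
closed), so some `δ > 0`, `δ ≤ r/3`, has the property of S_frl for all `u`. The open sets `O_u = thickening δ (Φ '' Cyl a u)`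
are disjoint and have diameter `≤ r`; their frequencies exist (S_frl) and have sum at most `1` (limit of sums; the sets
are disjoint). The complement of their union is compact and every point `y` of it has distance `≥ δ` from `Φ '' Sub`; cover it
by finitely many balls of radius `min (r/2) (δ/2)`; the orbit of `x` visits them only finitely often, so their upper
frequency is `0`. So `coverMass f x r univ ≤ 1`. -/
def S_cov : Prop := ∀ (M : Type) [MetricSpace M] [CompactSpace M] (f : M → M) (Φ : (ℤ → Bool) → M), Continuous f →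
  Continuous Φ → Function.Injective Φ → IsClosed Sub → Sub.Nonempty → (∀ w ∈ Sub, sh w ∈ Sub) →
  (∀ w ∈ Sub, f (Φ w) = Φ (sh w)) → ∀ x : M,
  Tendsto (fun n => Metric.infDist (f^[n] x) (Φ '' Sub)) atTop (𝓝 0) → orbitMass f x Set.univ ≤ 1

end Pool.Agent.Q127.KI
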