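import Mathlib
import Pool.Agent.Q127.SD.F

/-!
# Smooth diffeomorphisms whose only nontrivial recurrent set is a given subshift (helper127)
-/

set_option autoImplicit false

namespace Pool.Agent.Q127.KI

open Finset Filter Topology Function Dynamics
open Pool.Agent.Q132.CB Pool.Agent.Q127.SD

variable {ι : Type*} [Fintype ι] [DecidableEq ι]

/-! ### scaling -/

omit [DecidableEq ι] in
lemma Hm_scale {F : (ι → ℝ) → (ι → ℝ)} (hF : Hm F) : Hm (fun v => (1 / 2 : ℝ) • F ((2 : ℝ) • v)) := by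
  obtain ⟨A, hA, h1⟩ := hF.lip
  obtain ⟨B, hB, h2⟩ := hF.anti
  refine ⟨fun w => ?_, ⟨A, hA, fun v v' => ?_⟩, ⟨B, hB, fun v v' => ?_⟩, fun v hv => ?_⟩
  · obtain ⟨z, hz⟩ := hF.surj ((2 : ℝ) • w)
    refine ⟨(1 / 2 : ℝ) • z, ?_⟩
    rw [smul_smul, show (2 : ℝ) * (1 / 2) = 1 by norm_num, one_smul, hz, smul_smul,
      show (1 / 2 : ℝ) * 2 = 1 by norm_num, one_smul]
  · skip
    rw [← smul_sub, norm_smul]
    have := h1 ((2 : ℝ) • v) ((2 : ℝ) • v')
    rw [← smul_sub, norm_smul] at this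
    have e1 : ‖(1 / 2 : ℝ)‖ = 1 / 2 := by norm_num
    have e2 : ‖(2 : ℝ)‖ = 2 := by norm_num
    rw [e2] at this
    rw [e1]
    nlinarith
  · skip
    rw [← smul_sub, norm_smul]
    have := h2 ((2 : ℝ) • v) ((2 : ℝ) • v')
    rw [← smul_sub, norm_smul] at this
    have e1 : ‖(1 / 2 : ℝ)‖ = 1 / 2 := by norm_num
    have e2 : ‖(2 : ℝ)‖ = 2 := by norm_num
    rw [e2] at this
    rw [e1]
    nlinarith
  · skip
    rw [hF.off, smul_smul, show (1 / 2 : ℝ) * 2 = 1 by norm_num, one_smul]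
    rw [norm_smul]
    have e2 : ‖(2 : ℝ)‖ = 2 := by norm_num
    rw [e2]; linarith

omit [DecidableEq ι] in
lemma scale_off {F : (ι → ℝ) → (ι → ℝ)} (hF : Hm F) {v : ι → ℝ} (hv : 1 / 2 ≤ ‖v‖) :
    (1 / 2 : ℝ) • F ((2 : ℝ) • v) = v := by
  rw [hF.off, smul_smul, show (1 / 2 : ℝ) * 2 = 1 by norm_num, one_smul]
  rw [norm_smul]
  have e2 : ‖(2 : ℝ)‖ = 2 := by norm_num
  rw [e2]; linarith

/-! ### the embedding is injective -/

omit [Fintype ι] in
lemma Th_dg {θ c : ℝ} (h0 : 0 < θ) (h1 : θ ≤ 1 / 5) (hc : 0 < c) {x y : ι} (hxy : x ≠ y) {w w' : ℤ → Bool}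
    (h : Th x y c θ w = Th x y c θ w') : w 0 = w' 0 := by
  have e1 := congrFun h x
  unfold Th at e1
  rw [pt_x hxy, pt_x hxy] at e1
  have e2 : X θ w = X θ w' := mul_left_cancel₀ hc.ne' e1
  have b1 := X_bounds h0 h1 w
  have b2 := X_bounds h0 h1 w'
  rw [e2] at b1
  unfold dg at b1 b2
  by_contra hne
  cases hw : w 0 <;> cases hw' : w' 0 <;> rw [hw, hw'] at hne
  · exact hne rfl
  · rw [hw] at b1; rw [hw'] at b2
    simp at b1 b2; linarith
  · rw [hw] at b1; rw [hw'] at b2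
    simp at b1 b2; linarith
  · exact hne rfl

omit [Fintype ι] in
lemma Th_inj {θ c : ℝ} (h0 : 0 < θ) (h1 : θ ≤ 1 / 5) (hc : 0 < c) {x y : ι} (hxy : x ≠ y)
    {G : (ι → ℝ) → (ι → ℝ)} (hG : Injective G) (hGT : ∀ w, G (Th x y c θ w) = Th x y c θ (sg w)) :
    Injective (Th x y c θ) := by
  intro w w' h
  have f : ∀ n : ℕ, Th x y c θ (sg^[n] w) = Th x y c θ (sg^[n] w') := by
    intro n
    induction n with
    | zero => exact h
    | succ n ih => rw [iterate_succ_apply', iterate_succ_apply', ← hGT, ← hGT, ih]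
  have g : ∀ n : ℕ, Th x y c θ (sgi^[n] w) = Th x y c θ (sgi^[n] w') := by
    intro n
    induction n with
    | zero => exact h
    | succ n ih =>
      rw [iterate_succ_apply', iterate_succ_apply']
      apply hG
      rw [hGT, hGT, sg_sgi, sg_sgi, ih]
  have sgi_iter : ∀ (w : ℤ → Bool) (n : ℕ) (i : ℤ), sgi^[n] w i = w (i - n) := by
    intro w n
    induction n generalizing w with
    | zero => intro i; simp
    | succ n ih =>
      intro i
      rw [iterate_succ_apply, ih]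
      show w (i - n - 1) = _
      congr 1
      push_cast
      ring
  funext i
  obtain ⟨n, hn | hn⟩ := Int.eq_nat_or_neg i
  · have := Th_dg h0 h1 hc hxy (f n)
    rw [sg_iter, sg_iter, zero_add] at this
    rw [hn]; exact this
  · have := Th_dg h0 h1 hc hxy (g n)
    rw [sgi_iter, sgi_iter, zero_sub] at this
    rw [hn]; exact this

/-- **The smooth realization.** -/
theorem exists_cube {x y t : ι} (hxy : x ≠ y) (hxt : t ≠ x) (hyt : t ≠ y) {S : Set (ℤ → Bool)} (hS : IsClosed S)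
    (hs : ∀ w ∈ S, sg w ∈ S) (hsi : ∀ w ∈ S, sgi w ∈ S) :
    ∃ (F : (ι → ℝ) → (ι → ℝ)) (Φ : (ℤ → Bool) → ι → ℝ), Hm F ∧ ContDiff ℝ (⊤ : ℕ∞) F ∧ Continuous Φ ∧
      Injective Φ ∧ (∀ w, ‖Φ w‖ ≤ 1 / 2) ∧ (∀ w ∈ S, F (Φ w) = Φ (sg w)) ∧ (∀ v, v t ≤ F v t) ∧
      (∀ v, ‖v‖ < 1 → v ∉ Φ '' S → v t < F v t) ∧ ∀ v, 1 / 2 ≤ ‖v‖ → ∀ i, i ≠ t → F v i = v i := by
  obtain ⟨M, hM1, hM⟩ := chi_lip
  set θ : ℝ := 1 / 5 with hθ
  have h0 : 0 < θ := by norm_num
  have h1 : θ ≤ 1 / 5 := le_refl _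
  set η : ℝ := 1 / (2 * M) with hηd
  have hη : 0 < η := by positivity
  have hηM : η * M ≤ 1 / 2 := by rw [hηd]; apply le_of_eq; field_simp
  have hη1 : η ≤ 1 := by
    rw [hηd, div_le_one (by positivity)]; linarith
  set c := η * θ / 8 with hc
  have hc0 : 0 < c := by positivity
  have hc1 : c ≤ 1 / 8 := by rw [hc]; nlinarith
  set G := HH x y η θ with hG
  have hGm : Hm G := HH_Hm hxy hM (by linarith) hηM hη hη1 h0 h1
  have hGs : ContDiff ℝ (⊤ : ℕ∞) G := smooth_HH x y η θ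
  have hGpt : ∀ w, G (Th x y c θ w) = Th x y c θ (sg w) := HH_Th hxy hη hη1 h0 h1
  set G' : (ι → ℝ) → (ι → ℝ) := fun v => (1 / 2 : ℝ) • G ((2 : ℝ) • v) with hG'
  have hGm' : Hm G' := Hm_scale hGm
  have hGs' : ContDiff ℝ (⊤ : ℕ∞) G' := by
    apply ContDiff.const_smul
    exact hGs.comp (contDiff_id.const_smul _)
  set Φ : (ℤ → Bool) → ι → ℝ := fun w => (1 / 2 : ℝ) • Th x y c θ w with hΦ
  have hΦc : Continuous Φ := (Th_cont h0 h1 x y c).const_smul (1 / 2 : ℝ)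
  have hGpt' : ∀ w, G' (Φ w) = Φ (sg w) := by
    intro w
    simp only [hG', hΦ]
    rw [smul_smul, show (2 : ℝ) * (1 / 2) = 1 by norm_num, one_smul, hGpt]
  have hΦi : Injective Φ := by
    intro w w' h
    have : Th x y c θ w = Th x y c θ w' := smul_right_injective _ (by norm_num : (1 / 2 : ℝ) ≠ 0) h
    exact Th_inj h0 h1 hc0 hxy hGm.inj hGpt this
  have hΦn : ∀ w, ‖Φ w‖ ≤ 1 / 2 := by
    intro w
    simp only [hΦ]
    rw [norm_smul]
    have := Th_norm h0 h1 hc0 hc1 x y w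
    have e1 : ‖(1 / 2 : ℝ)‖ = 1 / 2 := by norm_num
    rw [e1]; linarith
  set K : Set (ι → ℝ) := Φ '' S with hK
  have hKc : IsClosed K := (hS.isCompact.image hΦc).isClosed
  obtain ⟨φ, p1, p2, p3, p4, p5⟩ := exists_push hKc t
  set F : (ι → ℝ) → (ι → ℝ) := mv t φ ∘ G' with hF
  have hFm : Hm F := (Hm.mv p2).comp hGm'
  have hFs : ContDiff ℝ (⊤ : ℕ∞) F := (mv_smooth p1).comp hGs'
  have hGt : ∀ v, G' v t = v t := by
    intro v
    simp only [hG', hG]
    rw [Pi.smul_apply, HH_t hxt hyt, Pi.smul_apply, smul_smul, show (1 / 2 : ℝ) * 2 = 1 by norm_num, one_smul]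
  have hτ : ∀ v, F v t = v t + φ (G' v) := by
    intro v
    show mv t φ (G' v) t = _
    unfold mv
    rw [update_self, hGt]
  refine ⟨F, Φ, hFm, hFs, hΦc, hΦi, hΦn, ?_, ?_, ?_, ?_⟩
  · intro w hw
    show mv t φ (G' (Φ w)) = _
    rw [hGpt']
    unfold mv
    rw [p4 _ ⟨sg w, hs w hw, rfl⟩, add_zero, update_eq_self]
  · intro v
    rw [hτ]
    have := p3 (G' v)
    linarith
  · intro v hv hvK
    rw [hτ]
    have hGK' : G' v ∉ K := by
      rintro ⟨w, hw, hw2⟩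
      apply hvK
      refine ⟨sgi w, hsi w hw, ?_⟩
      apply hGm'.inj
      rw [hGpt', sg_sgi]; exact hw2
    have := p5 _ hGK' (hGm'.ball hv)
    linarith
  · intro v hv i hi
    show mv t φ (G' v) i = _
    unfold mv
    rw [update_of_ne hi]
    simp only [hG']
    rw [scale_off hGm hv]

end Pool.Agent.Q127.KI
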