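import Mathlib
import Pool.Agent.Q127.KI.Sm

/-!
# The realization on compact manifolds (helper127)
-/

set_option autoImplicit false

namespace Pool.Agent.Q127.KI

open Finset Filter Topology Function Dynamics
open scoped Manifold ContDiff
open Pool.Agent.Q132.CB Pool.Agent.Q127.SD

section man

variable {d : ℕ} {M : Type} [MetricSpace M] [CompactSpace M] [ChartedSpace (EuclideanSpace ℝ (Fin d)) M]
  [IsManifold (𝓡 d) ∞ M] [MeasurableSpace M] [BorelSpace M]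

lemma three (hd : 3 ≤ d) : ∃ x y t : Fin d, x ≠ y ∧ t ≠ x ∧ y ≠ t := by
  refine ⟨⟨0, by omega⟩, ⟨1, by omega⟩, ⟨2, by omega⟩, ?_, ?_, ?_⟩ <;> simp

/-- **Realization on a compact manifold.** -/
theorem exists_manifold (hd : 3 ≤ d) {U : Set M} (hU : IsOpen U) (hUn : U.Nonempty) {S : Set (ℤ → Bool)}
    (hS : IsClosed S) (hs : ∀ w ∈ S, sg w ∈ S) (hsi : ∀ w ∈ S, sgi w ∈ S) :
    ∃ (f : Diffeomorph (𝓡 d) (𝓡 d) M M ∞) (Φ : (ℤ → Bool) → M) (C : Set M) (τ : M → ℝ),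
      IsOpen C ∧ C ⊆ U ∧ Continuous Φ ∧ Injective Φ ∧ (∀ w ∈ S, f (Φ w) = Φ (sg w)) ∧ (∀ m, m ∉ C → f m = m) ∧
      (∀ m, m ∈ C → f m ∈ C) ∧ Measurable τ ∧ (∃ B : ℝ, ∀ m, |τ m| ≤ B) ∧ (∀ m, τ m ≤ τ (f m)) ∧
      ∀ m ∈ C, m ∉ Φ '' S → τ m < τ (f m) := by
  classical
  obtain ⟨x, y, t, hxy, hxt, hyt⟩ := three hd
  obtain ⟨m0, hm0⟩ := hUn
  obtain ⟨j, k, hc⟩ := exists_copy (d := d) hU hm0
  obtain ⟨F, Φ, hF, hFs, hΦc, hΦi, hΦn, hFΦ, hle, hlt, -⟩ := exists_cube hxy hxt hyt.symm hS hs hsi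
  obtain ⟨g, hg⟩ := exists_diffeo hc hF.homeo hFs (Hm_symm_smooth hF hFs) hF.off
  have hg' : (g : M → M) = FM j F := hg
  set C : Set M := j '' Metric.ball 0 1 with hC
  have hCo : IsOpen C := hc.emb.isOpenMap _ Metric.isOpen_ball
  have hCr : C ⊆ Set.range j := Set.image_subset_range _ _
  have hgj : ∀ v, g (j v) = j (F v) := fun v => by rw [hg', FM_apply hc.emb]
  have hoff : ∀ m, m ∉ C → g m = m := fun m hm => by rw [hg']; exact FM_off hc.emb hF.off m hm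
  have hmem : ∀ m, m ∈ C → g m ∈ C := by
    rintro _ ⟨v, hv, rfl⟩
    rw [hgj]
    exact ⟨F v, mem_ball_zero_iff.2 (hF.ball (mem_ball_zero_iff.1 hv)), rfl⟩
  set τ : M → ℝ := C.piecewise (fun m => k m t) (fun _ => 0) with hτ
  have hτm : Measurable τ := by
    apply ContinuousOn.measurable_piecewise
    · have h1 : ContinuousOn k C := hc.inv.continuousOn.mono hCr
      exact (continuous_apply t).comp_continuousOn h1
    · exact continuousOn_const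
    · exact hCo.measurableSet
  have hτC : ∀ v, ‖v‖ < 1 → τ (j v) = v t := by
    intro v hv
    have hm : j v ∈ C := ⟨v, mem_ball_zero_iff.2 hv, rfl⟩
    rw [hτ, Set.piecewise_eq_of_mem _ _ _ hm, hc.left]
  have hτC' : ∀ m, m ∉ C → τ m = 0 := fun m hm => Set.piecewise_eq_of_notMem _ _ _ hm
  refine ⟨g, j ∘ Φ, C, τ, hCo, hCr.trans hc.sub, hc.emb.continuous.comp hΦc, hc.emb.injective.comp hΦi, ?_, hoff,
    hmem, hτm, ⟨1, fun m => ?_⟩, fun m => ?_, fun m hm hmS => ?_⟩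
  · intro w hw
    show g (j (Φ w)) = j (Φ (sg w))
    rw [hgj, hFΦ w hw]
  · by_cases hm : m ∈ C
    · obtain ⟨v, hv, rfl⟩ := hm
      rw [hτC v (mem_ball_zero_iff.1 hv)]
      exact (coord_le v t).trans (mem_ball_zero_iff.1 hv).le
    · rw [hτC' m hm, abs_zero]; norm_num
  · by_cases hm : m ∈ C
    · obtain ⟨v, hv, rfl⟩ := hm
      have hv' := mem_ball_zero_iff.1 hv
      rw [hgj, hτC v hv', hτC _ (hF.ball hv')]
      exact hle v
    · rw [hoff m hm]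
  · obtain ⟨v, hv, rfl⟩ := hm
    have hv' := mem_ball_zero_iff.1 hv
    rw [hgj, hτC v hv', hτC _ (hF.ball hv')]
    apply hlt v hv'
    rintro ⟨w, hw, rfl⟩
    exact hmS ⟨w, hw, rfl⟩

end man

end Pool.Agent.Q127.KI
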