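import Mathlib
import Pool.Agent.Q127.KI.Mn
import Pool.Agent.Q127.KI.Stm
import Pool.Agent.Q54.KI.UNI
import Pool.Agent.Q256.KI.KSZ
import Pool.Agent.Q154.KI_MEA
import Pool.Agent.Q182.KI_DEC
import Pool.Agent.Q208.KI_FRQ
import Pool.Agent.Q222.KI_NEM
import Pool.Agent.Q252.KI_TRA
import Pool.Agent.Q39.KI_APP
import Pool.Agent.Q71.KI_INV
import Pool.Agent.Q90.KI_GRW
import Pool.Agent.Q121.KI_SUB
import Pool.Agent.Q123.KI_CLS
import Pool.Agent.Q123.KI_INJ

/-!
# Diffeomorphisms with one nontrivial ergodic measure (helper127; lemmas by helpers 39, 44, 54, 71, 90, 121, 123, 154,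
182, 208, 222, 252, 256)
-/

set_option autoImplicit false

namespace Pool.Agent.Q127.KI

open MeasureTheory Filter Topology Dynamics
open scoped Manifold ContDiff
open Pool.Agent.Q132.CB (sg sgi)

lemma Sub_closed : IsClosed (KI.Sub) := isClosed_iInter Q123.KI_CLS.cls

lemma Sub_sg : ∀ w ∈ KI.Sub, sg w ∈ KI.Sub := by
  intro w hw
  rw [KI.Sub, Set.mem_iInter] at hw ⊢
  exact fun k => Pool.Agent.Q71.KI_INV.inv k 1 w (hw k)

lemma Sub_sgi : ∀ w ∈ KI.Sub, sgi w ∈ KI.Sub := by
  intro w hw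
  rw [KI.Sub, Set.mem_iInter] at hw ⊢
  exact fun k => Pool.Agent.Q71.KI_INV.inv k (-1) w (hw k)

section man

variable {d : ℕ} {M : Type} [MetricSpace M] [CompactSpace M] [ChartedSpace (EuclideanSpace ℝ (Fin d)) M]
  [IsManifold (𝓡 d) ∞ M] [MeasurableSpace M] [BorelSpace M]

/-- The main theorem, with the positivity of the entropy as a hypothesis. -/
theorem main (hent : S_ent) (hd : 3 ≤ d) {U : Set M} (hU : IsOpen U) (hUn : U.Nonempty) :
    ∃ f : Diffeomorph (𝓡 d) (𝓡 d) M M ∞, (∀ m, m ∉ U → f m = m) ∧ 0 < coverEntropy f Set.univ ∧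
      (∀ μ : Measure M, IsProbabilityMeasure μ → Ergodic f μ → (∀ᵐ x ∂μ, f x = x) ∨ (∀ᵐ x ∂μ, f x ≠ x)) ∧
      (∀ μ : Measure M, IsProbabilityMeasure μ → (∀ᵐ x ∂μ, f x = x) → ksEntropy f μ = 0) ∧
      ∀ μ ν : Measure M, IsProbabilityMeasure μ → IsProbabilityMeasure ν → MeasurePreserving f μ μ →
        MeasurePreserving f ν ν → (∀ᵐ x ∂μ, f x ≠ x) → (∀ᵐ x ∂ν, f x ≠ x) → μ = ν := by
  obtain ⟨f, Φ, C, τ, hCo, hCU, hΦc, hΦi, hfΦ, hoff, hmem, hτm, hτb, hle, hlt⟩ :=
    exists_manifold (d := d) hd hU hUn Sub_closed Sub_sg Sub_sgi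
  have hfΦ' : ∀ w ∈ KI.Sub, f (Φ w) = Φ (sh w) := hfΦ
  have hfm : Measurable f := f.continuous.measurable
  have hpre : f ⁻¹' C = C := by
    ext m
    constructor
    · intro hm
      by_contra hcon
      rw [Set.mem_preimage, hoff m hcon] at hm
      exact hcon hm
    · exact hmem m
  have key : ∀ μ : Measure M, IsProbabilityMeasure μ → MeasurePreserving f μ μ → (∀ᵐ x ∂μ, f x ≠ x) →
      ∀ᵐ x ∂μ, x ∈ Φ '' KI.Sub := by
    intro μ hμ hf h
    have h1 := Pool.Agent.Q154.KI.mea M f μ hf τ hτm hτb hle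
    filter_upwards [h, h1] with x hx hx1
    by_contra hcon
    have hxC : x ∈ C := by
      by_contra hc
      exact hx (hoff x hc)
    have := hlt x hxC hcon
    linarith
  refine ⟨f, fun m hm => hoff m (fun h => hm (hCU h)), hent M f Φ hΦc hΦi hfΦ', ?_, ?_, ?_⟩
  · intro μ hμ hf
    rcases hf.toPreErgodic.ae_empty_or_univ hCo.measurableSet hpre with h | h
    · left
      have h' : ∀ᵐ x ∂μ, x ∉ C := by
        rw [← measure_eq_zero_iff_ae_notMem, measure_congr h, measure_empty]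
      filter_upwards [h'] with x hx
      exact hoff x hx
    · by_cases hK : ∀ᵐ x ∂μ, f x ≠ x
      · right; exact hK
      · left
        have hset : MeasurableSet {x | f x = x} := (isClosed_eq f.continuous continuous_id).measurableSet
        have hpre2 : f ⁻¹' {x | f x = x} = {x | f x = x} := by
          ext x
          simp only [Set.mem_preimage, Set.mem_setOf_eq]
          exact f.injective.eq_iff
        rcases hf.toPreErgodic.ae_empty_or_univ hset hpre2 with h2 | h2
        · exfalso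
          apply hK
          have : μ {x | f x = x} = 0 := by rw [measure_congr h2, measure_empty]
          exact measure_eq_zero_iff_ae_notMem.1 this
        · have : ∀ᵐ x ∂μ, x ∈ {x | f x = x} := by
            filter_upwards [h2.mem_iff] with x hx
            exact hx.2 trivial
          exact this
  · intro μ hμ h
    exact Pool.Agent.Q256.KI.ksz M f μ h
  · intro μ ν hμ hν hfμ hfν h1 h2
    exact Pool.Agent.Q252.KI.tra (Pool.Agent.Q54.KI.uni (Pool.Agent.Q208.KI_FRQ.frq Pool.Agent.Q121.KI_SUB.sub) grw) M f hfm Φ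
      hΦc hΦi hfΦ' μ ν hfμ hfν (key μ hμ hfμ h1) (key ν hν hfν h2)

end man

end Pool.Agent.Q127.KI
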