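import Mathlib
import Pool.Agent.Q127.KI.Mn
import Pool.Agent.Q127.KI.Stm2
import Pool.Agent.Q127.KI.Fin

/-!
# Asymptotics of all orbits of the realization on compact manifolds (helper127)
-/

set_option autoImplicit false

namespace Pool.Agent.Q127.KI

open Finset Filter Topology Function Dynamics
open scoped Manifold ContDiff
open Pool.Agent.Q132.CB Pool.Agent.Q127.SD

section man

variable {d : ℕ} {M : Type} [MetricSpace M] [CompactSpace M] [ChartedSpace (EuclideanSpace ℝ (Fin d)) M]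
  [IsManifold (𝓡 d) ∞ M]

/-- **Realization on a compact manifold**: every orbit converges to a point or to the image of the subshift. -/
theorem exists_manifold2 (hdic : S_dic) (hd : 3 ≤ d) {U : Set M} (hU : IsOpen U) (hUn : U.Nonempty)
    {S : Set (ℤ → Bool)} (hS : IsClosed S) (hs : ∀ w ∈ S, sg w ∈ S) (hsi : ∀ w ∈ S, sgi w ∈ S) :
    ∃ (f : Diffeomorph (𝓡 d) (𝓡 d) M M ∞) (Φ : (ℤ → Bool) → M), Continuous Φ ∧ Injective Φ ∧
      (∀ w ∈ S, f (Φ w) = Φ (sg w)) ∧ (∀ m, m ∉ U → f m = m) ∧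
      ∀ m, (∃ z, Tendsto (fun n => f^[n] m) atTop (𝓝 z)) ∨
        Tendsto (fun n => Metric.infDist (f^[n] m) (Φ '' S)) atTop (𝓝 0) := by
  classical
  obtain ⟨x, y, t, hxy, hxt, hyt⟩ := three hd
  obtain ⟨m0, hm0⟩ := hUn
  obtain ⟨j, k, hc⟩ := exists_copy (d := d) hU hm0
  obtain ⟨F, Φ, hF, hFs, hΦc, hΦi, hΦn, hFΦ, hle, hlt, hno⟩ := exists_cube hxy hxt hyt.symm hS hs hsi
  obtain ⟨g, hg⟩ := exists_diffeo hc hF.homeo hFs (Hm_symm_smooth hF hFs) hF.off
  have hg' : (g : M → M) = FM j F := hg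
  set C : Set M := j '' Metric.ball 0 1 with hC
  have hCr : C ⊆ Set.range j := Set.image_subset_range _ _
  have hgj : ∀ v, g (j v) = j (F v) := fun v => by rw [hg', FM_apply hc.emb]
  have hoff : ∀ m, m ∉ C → g m = m := fun m hm => by rw [hg']; exact FM_off hc.emb hF.off m hm
  have hit : ∀ v n, g^[n] (j v) = j (F^[n] v) := by
    intro v n
    rw [hg']
    exact FM_iter hc v n
  refine ⟨g, j ∘ Φ, hc.emb.continuous.comp hΦc, hc.emb.injective.comp hΦi, ?_, fun m hm => hoff m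
    (fun h => hm (hc.sub (hCr h))), fun m => ?_⟩
  · intro w hw
    show g (j (Φ w)) = j (Φ (sg w))
    rw [hgj, hFΦ w hw]
  by_cases hm : m ∈ C
  swap
  · left
    refine ⟨m, ?_⟩
    have : ∀ n, g^[n] m = m := fun n => iterate_fixed (hoff m hm) n
    simp only [this]
    exact tendsto_const_nhds
  obtain ⟨v, hv, rfl⟩ := hm
  have hv' := mem_ball_zero_iff.1 hv
  have hFc : Continuous F := hFs.continuous
  rcases hdic d t F (Φ '' S) hFc (fun v hv => hF.ball hv) (fun v hv => hF.off v hv) hle hlt hno v hv' with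
    ⟨z, -, hz⟩ | h
  · left
    refine ⟨j z, ?_⟩
    simp only [hit]
    exact (hc.emb.continuous.tendsto z).comp hz
  · right
    simp only [hit]
    rcases S.eq_empty_or_nonempty with rfl | hSn
    · simp
    have hKn : (Φ '' S).Nonempty := hSn.image _
    have hball : ∀ n, F^[n] v ∈ Metric.closedBall (0 : Fin d → ℝ) 1 := by
      intro n
      have : ‖F^[n] v‖ < 1 := by
        induction n with
        | zero => exact hv'
        | succ n ih => rw [iterate_succ_apply']; exact hF.ball ih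
      exact mem_closedBall_zero_iff.2 this.le
    have huc : UniformContinuousOn j (Metric.closedBall (0 : Fin d → ℝ) 1) :=
      (isCompact_closedBall _ _).uniformContinuousOn_of_continuous hc.emb.continuous.continuousOn
    rw [Metric.uniformContinuousOn_iff] at huc
    rw [Metric.tendsto_atTop] at h ⊢
    intro ε hε
    obtain ⟨δ, hδ, hδ2⟩ := huc ε hε
    obtain ⟨N, hN⟩ := h δ hδ
    refine ⟨N, fun n hn => ?_⟩
    have h1 := hN n hn
    rw [Real.dist_eq, sub_zero, abs_of_nonneg Metric.infDist_nonneg] at h1 ⊢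
    obtain ⟨p, ⟨w, hw, rfl⟩, hp⟩ := (Metric.infDist_lt_iff hKn).1 h1
    have h2 := hδ2 _ (hball n) (Φ w) (mem_closedBall_zero_iff.2 (by linarith [hΦn w])) hp
    exact lt_of_le_of_lt (Metric.infDist_le_dist_of_mem (x := j (F^[n] v)) ⟨w, hw, rfl⟩) h2

lemma Sub_sh : ∀ w ∈ Sub, sh w ∈ Sub := Sub_sg

/-- The main theorem of the second part. -/
theorem main2 (hdic : S_dic) (hfix : S_fix) (hcov : S_cov) (hent : S_ent) (hne : Sub.Nonempty) (hd : 3 ≤ d)
    {U : Set M} (hU : IsOpen U) (hUn : U.Nonempty) :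
    ∃ f : Diffeomorph (𝓡 d) (𝓡 d) M M ∞, (∀ m, m ∉ U → f m = m) ∧ 0 < coverEntropy f Set.univ ∧
      ∀ x, orbitMass f x Set.univ ≤ 1 := by
  obtain ⟨f, Φ, hΦc, hΦi, hfΦ, hoff, h⟩ := exists_manifold2 (d := d) hdic hd hU hUn Sub_closed Sub_sg Sub_sgi
  refine ⟨f, hoff, hent M f Φ hΦc hΦi hfΦ, fun x => ?_⟩
  rcases h x with ⟨z, hz⟩ | hx
  · exact hfix M f x z hz
  · exact hcov M f Φ f.continuous hΦc hΦi Sub_closed hne Sub_sh hfΦ x hx

end man

end Pool.Agent.Q127.KI
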